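import Pool.Agent.Helper64.FL.StE

/-! MP_866009_co: lemmas on induced paths. -/

set_option autoImplicit false

namespace Pool.Agent.Helper63.FL

open Pool.Agent.Helper64.FL

variable {V : Type}

theorem ipt_cons (G : SimpleGraph V) (a : V) (l : List V) :
    IPt G (a :: l) ↔ ((∀ x ∈ l, a ≠ x) ∧ (∀ b ∈ l.head?, G.Adj a b) ∧
      (∀ x ∈ l.tail, ¬ G.Adj a x) ∧ IPt G l) := Iff.rfl

theorem ipt_two (G : SimpleGraph V) (a b : V) (l : List V) :
    IPt G (a :: b :: l) ↔ ((∀ x ∈ b :: l, a ≠ x) ∧ G.Adj a b ∧
      (∀ x ∈ l, ¬ G.Adj a x) ∧ IPt G (b :: l)) := by
  rw [ipt_cons]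
  constructor
  · rintro ⟨h1, h2, h3, h4⟩
    exact ⟨h1, h2 b rfl, h3, h4⟩
  · rintro ⟨h1, h2, h3, h4⟩
    refine ⟨h1, ?_, h3, h4⟩
    intro c hc
    have : b = c := by simpa using hc
    rw [← this]; exact h2

theorem ipt_one (G : SimpleGraph V) (a : V) : IPt G [a] := by
  rw [ipt_cons]
  refine ⟨?_, ?_, ?_, trivial⟩
  · intro x hx; simp at hx
  · intro x hx; simp at hx
  · intro x hx; simp at hx

theorem ipt_split (G : SimpleGraph V) (A B : List V) (z : V) :
    IPt G (A ++ z :: B) ↔ (IPt G (A ++ [z]) ∧ IPt G (z :: B) ∧
      (∀ x ∈ A, ∀ y ∈ B, x ≠ y ∧ ¬ G.Adj x y)) := by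
  induction A with
  | nil =>
    constructor
    · intro h
      refine ⟨ipt_one G z, h, ?_⟩
      intro x hx; simp at hx
    · intro h
      exact h.2.1
  | cons a A ih =>
    cases A with
    | nil =>
      rw [List.cons_append, List.nil_append, List.cons_append, List.nil_append, ipt_two, ipt_two]
      constructor
      · rintro ⟨h1, h2, h3, h4⟩
        refine ⟨⟨?_, h2, ?_, ipt_one G z⟩, h4, ?_⟩
        · intro x hx
          have : x = z := by simpa using hx
          rw [this]; exact h1 z (by simp)
        · intro x hx; simp at hx
        · intro x hx y hy
          have : x = a := by simpa using hx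
          rw [this]
          exact ⟨h1 y (List.mem_cons_of_mem _ hy), h3 y hy⟩
      · rintro ⟨⟨h1, h2, _, _⟩, h4, h5⟩
        refine ⟨?_, h2, ?_, h4⟩
        · intro x hx
          rcases List.mem_cons.1 hx with h | h
          · rw [h]; exact h1 z (by simp)
          · exact (h5 a (by simp) x h).1
        · intro x hx
          exact (h5 a (by simp) x hx).2
    | cons b A =>
      rw [List.cons_append, List.cons_append, List.cons_append, List.cons_append, ipt_two, ipt_two]
      rw [List.cons_append, List.cons_append] at ih
      rw [ih]
      constructor
      · rintro ⟨h1, h2, h3, h4, h5, h6⟩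
        refine ⟨⟨?_, h2, ?_, h4⟩, h5, ?_⟩
        · intro x hx
          apply h1
          rcases List.mem_cons.1 hx with h | h
          · rw [h]; simp
          · rcases List.mem_append.1 h with h | h
            · exact List.mem_cons_of_mem _ (List.mem_append_left _ h)
            · have : x = z := by simpa using h
              rw [this]; exact List.mem_cons_of_mem _ (List.mem_append_right _ (by simp))
        · intro x hx
          apply h3
          rcases List.mem_append.1 hx with h | h
          · exact List.mem_append_left _ h
          · have : x = z := by simpa using h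
            rw [this]; exact List.mem_append_right _ (by simp)
        · intro x hx y hy
          rcases List.mem_cons.1 hx with h | h
          · rw [h]
            exact ⟨h1 y (List.mem_cons_of_mem _ (List.mem_append_right _
              (List.mem_cons_of_mem _ hy))), h3 y (List.mem_append_right _
              (List.mem_cons_of_mem _ hy))⟩
          · exact h6 x h y hy
      · rintro ⟨⟨h1, h2, h3, h4⟩, h5, h6⟩
        refine ⟨?_, h2, ?_, h4, h5, ?_⟩
        · intro x hx
          rcases List.mem_cons.1 hx with h | h
          · rw [h]; exact h1 b (by simp)
          · rcases List.mem_append.1 h with h | h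
            · exact h1 x (List.mem_cons_of_mem _ (List.mem_append_left _ h))
            · rcases List.mem_cons.1 h with h | h
              · rw [h]; exact h1 z (List.mem_cons_of_mem _ (List.mem_append_right _ (by simp)))
              · exact (h6 a (by simp) x h).1
        · intro x hx
          rcases List.mem_append.1 hx with h | h
          · exact h3 x (List.mem_append_left _ h)
          · rcases List.mem_cons.1 h with h | h
            · rw [h]; exact h3 z (List.mem_append_right _ (by simp))
            · exact (h6 a (by simp) x h).2
        · intro x hx y hy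
          exact h6 x (List.mem_cons_of_mem _ hx) y hy

theorem ipt_rev (G : SimpleGraph V) : ∀ l, IPt G l → IPt G l.reverse := by
  intro l
  induction l with
  | nil => intro _; trivial
  | cons a l ih =>
    intro h
    cases l with
    | nil => exact ipt_one G a
    | cons b l =>
      rw [ipt_two] at h
      obtain ⟨h1, h2, h3, h4⟩ := h
      have h5 := ih h4
      rw [List.reverse_cons] at h5
      have e : (a :: b :: l).reverse = l.reverse ++ b :: [a] := by simp
      rw [e, ipt_split]
      refine ⟨h5, ?_, ?_⟩
      · rw [ipt_two]
        refine ⟨?_, h2.symm, ?_, ipt_one G a⟩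
        · intro x hx
          have : x = a := by simpa using hx
          rw [this]; exact (h1 b (by simp)).symm
        · intro x hx; simp at hx
      · intro x hx y hy
        have hy' : y = a := by simpa using hy
        have hx' : x ∈ l := by simpa using hx
        rw [hy']
        exact ⟨(h1 x (List.mem_cons_of_mem _ hx')).symm, fun h => h3 x hx' h.symm⟩

theorem ipt_nodup (G : SimpleGraph V) : ∀ l, IPt G l → l.Nodup := by
  intro l
  induction l with
  | nil => intro _; exact List.nodup_nil
  | cons a l ih =>
    intro h
    rw [ipt_cons] at h
    rw [List.nodup_cons]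
    exact ⟨fun ha => h.1 a ha rfl, ih h.2.2.2⟩

theorem ipt_adj (G : SimpleGraph V) : ∀ l, IPt G l → ∀ (i j : ℕ) (hi : i < l.length)
    (hj : j < l.length), i < j → (G.Adj l[i] l[j] ↔ j = i + 1) := by
  intro l
  induction l with
  | nil =>
    intro _ i j hi
    exact absurd hi (by simp)
  | cons a l ih =>
    intro h i j hi hj hij
    rw [ipt_cons] at h
    obtain ⟨h1, h2, h3, h4⟩ := h
    cases j with
    | zero => exact absurd hij (by omega)
    | succ j =>
      have hj' : j < l.length := by simpa using hj
      cases i with
      | zero =>
        rw [List.getElem_cons_zero, List.getElem_cons_succ]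
        cases j with
        | zero =>
          have h5 : G.Adj a l[0] := by
            apply h2
            rw [List.head?_eq_getElem?, Option.mem_def, List.getElem?_eq_getElem hj']
          exact ⟨fun _ => rfl, fun _ => h5⟩
        | succ k =>
          have h5 : ¬ G.Adj a l[k + 1] := by
            apply h3
            rw [List.mem_iff_getElem]
            refine ⟨k, ?_, ?_⟩
            · rw [List.length_tail]; omega
            · rw [List.getElem_tail]
          constructor
          · intro h6; exact absurd h6 h5
          · intro h6; exact absurd h6 (by omega)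
      | succ i =>
        have hi' : i < l.length := by simpa using hi
        rw [List.getElem_cons_succ, List.getElem_cons_succ]
        rw [ih h4 i j hi' hj' (by omega)]
        constructor
        · intro h6; omega
        · intro h6; omega

theorem st_IPL : ST_IPL := by
  intro V G
  exact ⟨ipt_rev G, ipt_split G, ipt_nodup G, ipt_adj G⟩

end Pool.Agent.Helper63.FL

namespace Pool.Agent.Helper64.FL

theorem st_IPL : ST_IPL := Pool.Agent.Helper63.FL.st_IPL

end Pool.Agent.Helper64.FL
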