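import Pool.Agent.Helper64.FL.StH
import Pool.Agent.Helper63.FL.IPL

/-! Full list for MP_866009_co: two consecutive dominating components. -/

set_option autoImplicit false

namespace Pool.Agent.Helper64.FL

open Pool.Agent.Helper64.CT Pool.Agent.Helper64.DT
open Pool.Agent.Helper64.HG (Ovl Model Circ IC HellyCircle ChordModel)

theorem d2d_snoc {V : Type} {G : SimpleGraph V} (u : V) : ∀ l : List V, IPt G (l ++ [u]) →
    IPt G l ∧ (∀ v ∈ l.getLast?, G.Adj v u) ∧ (∀ v ∈ l.dropLast, ¬ G.Adj v u) := by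
  intro l
  induction l with
  | nil => intro _; exact ⟨trivial, by simp, by simp⟩
  | cons a l ih =>
    intro h
    obtain ⟨h1, h2, h3, h4⟩ := h
    obtain ⟨i1, i2, i3⟩ := ih h4
    cases l with
    | nil =>
      refine ⟨⟨by simp, by simp, by simp, trivial⟩, ?_, by simp⟩
      intro v hv
      have e : v = a := by simpa using hv.symm
      subst e
      exact h2 u (by simp)
    | cons b l =>
      refine ⟨⟨fun x hx => h1 x (List.mem_append_left _ hx), fun c hc => h2 c ?_,
        fun x hx => h3 x ?_, i1⟩, ?_, ?_⟩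
      · simpa using hc
      · simp only [List.cons_append, List.tail_cons] at hx ⊢
        exact List.mem_append_left _ hx
      · intro v hv
        rw [List.getLast?_cons_cons] at hv
        exact i2 v hv
      · intro v hv
        rw [List.dropLast_cons_cons, List.mem_cons] at hv
        rcases hv with e | hv
        · subst e
          refine h3 u ?_
          simp
        · exact i3 v hv

/-- the end of a ladder inside a component -/
theorem d2d_end (hSPN : ST_SPN) (hCNB : ST_CNB) {V : Type} {G : SimpleGraph V} {x c : V}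
    {U Q : Set V} (hU : ∃ u ∈ U, Comp G x c u) (hQ : ∃ v, Comp G x c v ∧ v ∉ U ∧ ∃ p ∈ Q, G.Adj v p) :
    ∃ (w p u : V) (E : List V), u ∈ U ∧ Comp G x c u ∧ p ∈ Q ∧ G.Adj w p ∧ E ≠ [] ∧
      E.head? = some w ∧ IPt G E ∧ (∀ v ∈ E, Comp G x c v ∧ v ∉ U) ∧
      (∀ v ∈ E, G.Adj v p ↔ E.head? = some v) ∧ (∀ v ∈ E.getLast?, G.Adj u v) ∧
      (∀ v ∈ E.dropLast, ¬ G.Adj u v) := by
  obtain ⟨c1, c2, c3, c4, c5, c6, c7⟩ := hCNB V G
  obtain ⟨u0, hu0, hc0⟩ := hU
  obtain ⟨v0, hv0, hv1, p0, hp0, hvp0⟩ := hQ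
  have hcn : Cn G (KC G x c) v0 u0 := by
    have h1 := c6 x c v0 hv0
    have h2 := c6 x c u0 hc0
    exact c2 _ _ _ _ (c1 _ _ _ h1).2 h2
  obtain ⟨w, M, u, hwA, hwS, huB, huS, hp, hM, hne⟩ := hSPN V G (KC G x c)
    {v | Comp G x c v ∧ v ∉ U ∧ ∃ p ∈ Q, G.Adj v p} U
    ⟨v0, ⟨hv0, hv1, p0, hp0, hvp0⟩, u0, hu0, hcn⟩
  obtain ⟨hw1, hw2, p, hpQ, hwp⟩ := hwA
  have hwu : w ≠ u := fun e => hw2 (e ▸ huB)
  rcases hp with ⟨e, -⟩ | ⟨-, hip⟩
  · exact absurd e hwu
  rw [← List.cons_append] at hip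
  obtain ⟨j1, j2, j3⟩ := d2d_snoc u (w :: M) hip
  refine ⟨w, p, u, w :: M, huB, huS, hpQ, hwp, List.cons_ne_nil _ _, rfl, j1, ?_, ?_,
    fun v hv => (j2 v hv).symm, fun v hv h => j3 v hv h.symm⟩
  · intro v hv
    rw [List.mem_cons] at hv
    rcases hv with e | hv
    · subst e
      exact ⟨hw1, hw2⟩
    · exact ⟨(hM v hv).1, (hM v hv).2.2⟩
  · intro v hv
    rw [List.mem_cons] at hv
    rcases hv with e | hv
    · subst e
      exact ⟨fun _ => rfl, fun _ => hwp⟩
    · constructor
      · intro h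
        exact absurd ⟨(hM v hv).1, (hM v hv).2.2, p, hpQ, h⟩ (hM v hv).2.1
      · intro h
        have e : w = v := by simpa using h
        exact absurd e (j1.1 v hv)

theorem st_D2D (hCNB : ST_CNB) (hSEP : ST_SEP) (hSPN : ST_SPN) (hD0F : ST_D0F) (hL3 : ST_L3)
    (hSHF : ST_SHF) (hSTB : ST_STB) (hARX : ST_ARX) (hLPN : ST_LPN) : ST_D2D := by
  intro V G x k y hR hM hD hD' hds
  have hk := hM.k5
  have hM1 : MOC G x k (fun l => y (l + 1)) := (hSHF V G x k y hM).1 1
  have hyk : y k = y 0 := by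
    have h := hM.per 0
    rwa [zero_add] at h
  -- facts on the two dominating components
  obtain ⟨⟨u1, hu1⟩, f2, f3, -, -, -⟩ := hD0F V G x k y hM hD
  obtain ⟨⟨u2, hu2⟩, g2, g3, -, -, -⟩ := hD0F V G x k (fun l => y (l + 1)) hM1 hD'
  have l3 := hL3 V G x k y hM hD
  have l3' := hL3 V G x k (fun l => y (l + 1)) hM1 hD'
  have RR_of : ∀ j, 2 ≤ j → j + 2 ≤ k → ∀ n ∈ Att G x (y j), n ∈ RR G x k y :=
    fun j h1 h2 n hn => ⟨j, h1, h2, hn⟩
  have RR_of' : ∀ j, 3 ≤ j → j + 1 ≤ k → ∀ n ∈ Att G x (y j), n ∈ RR G x k (fun l => y (l + 1)) := by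
    intro j h1 h2 n hn
    refine ⟨j - 1, by omega, by omega, ?_⟩
    have e : j - 1 + 1 = j := by omega
    simp only [e]
    exact hn
  -- the vertices in `UU` are complete to all attachments of the other components
  have full : ∀ u ∈ UU G x k y, ∀ j, 2 ≤ j → j < k → ∀ n ∈ Att G x (y j), G.Adj u n := by
    intro u hu j h1 h2 n hn
    by_cases h3 : j + 2 ≤ k
    · exact hu.2 n (RR_of j h1 h3 n hn)
    · have e : j = k - 1 := by omega
      subst e
      rcases l3 u hu with h | h
      · exact h n (g3 n (RR_of' (k - 1) (by omega) (by omega) n hn))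
      · exact h n hn
  have full' : ∀ u ∈ UU G x k (fun l => y (l + 1)), ∀ j, 2 ≤ j → j < k →
      ∀ n ∈ Att G x (y j), G.Adj u n := by
    intro u hu j h1 h2 n hn
    by_cases h3 : 3 ≤ j
    · exact hu.2 n (RR_of' j h3 (by omega) n hn)
    · have e : j = 2 := by omega
      subst e
      rcases l3' u hu with h | h
      · exact h n hn
      · have e2 : k - 1 + 1 = k := by omega
        simp only [e2, hyk] at h
        exact h n (f3 n (RR_of 2 (by omega) (by omega) n hn))
  -- right end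
  obtain ⟨w, p, h, E2, hU, hC, hp, hwp, ne2, hd2, ip2, in2, ad2, la2, dl2⟩ :=
    d2d_end hSPN hCNB (G := G) (x := x) (c := y 0) (U := UU G x k y) (Q := Att G x (y (k - 1)))
      ⟨u1, hu1, hu1.1⟩ (by
        have hc := hM.cf (k - 1)
        have e : k - 1 + 1 = k := by omega
        rw [e, hyk] at hc
        obtain ⟨-, -, v, hv, ⟨n, hn, hvn⟩, m, hm, hvm⟩ := hc
        exact ⟨v, hv, fun hvU => hvm (full v hvU (k - 1) (by omega) (by omega) m hm), n, hn, hvn⟩)
  -- left end
  obtain ⟨w', p', h', E1, hU', hC', hp', hwp', ne1, hd1, ip1, in1, ad1, la1, dl1⟩ :=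
    d2d_end hSPN hCNB (G := G) (x := x) (c := y 1) (U := UU G x k (fun l => y (l + 1)))
      (Q := Att G x (y 2))
      ⟨u2, hu2, hu2.1⟩ (by
        have hc := hM.cf 1
        obtain ⟨-, ⟨v, hv, ⟨n, hn, hvn⟩, m, hm, hvm⟩, -⟩ := hc
        exact ⟨v, hv, fun hvU => hvm (full' v hvU 2 (by omega) (by omega) m hm), n, hn, hvn⟩)
  have an2 : ∀ v ∈ E2, ∀ n ∈ RR G x k y, ¬ G.Adj v n := by
    intro v hv n hn
    rcases f2 v (in2 v hv).1 with h0 | h0
    · exact absurd h0 (in2 v hv).2
    · exact h0 n hn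
  have an1 : ∀ v ∈ E1, ∀ n ∈ RR G x k (fun l => y (l + 1)), ¬ G.Adj v n := by
    intro v hv n hn
    rcases g2 v (in1 v hv).1 with h0 | h0
    · exact absurd h0 (in1 v hv).2
    · exact h0 n hn
  have hwE : w ∈ E2 := List.mem_of_mem_head? (by rw [hd2]; rfl)
  have hwE' : w' ∈ E1 := List.mem_of_mem_head? (by rw [hd1]; rfl)
  have hpR : p ∉ RR G x k y := fun h0 => an2 w hwE p h0 hwp
  have hpR' : p' ∉ RR G x k (fun l => y (l + 1)) := fun h0 => an1 w' hwE' p' h0 hwp'
  -- common attachments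
  have cm : ∀ i, ∃ n, n ∈ Att G x (y i) ∧ n ∈ Att G x (y (i + 1)) := by
    intro i
    obtain ⟨-, ⟨v, hv, ⟨n, hn, hvn⟩, -⟩, -⟩ := hM.cf i
    exact ⟨n, ⟨hn.1, v, hv, hvn.symm⟩, hn⟩
  choose m hm1 hm2 using cm
  obtain ⟨n, hn⟩ : ∃ n : ℕ → V, ∀ i, n i = if i = 1 then p' else if i = k - 1 then p else m i :=
    ⟨_, fun _ => rfl⟩
  have n1 : n 1 = p' := by rw [hn, if_pos rfl]
  have nk : n (k - 1) = p := by rw [hn, if_neg (by omega), if_pos rfl]
  have nm : ∀ i, 2 ≤ i → i + 2 ≤ k → n i = m i := by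
    intro i h1 h2
    rw [hn, if_neg (by omega), if_neg (by omega)]
  have nA : ∀ i, 2 ≤ i → i < k → n i ∈ Att G x (y i) := by
    intro i h1 h2
    by_cases h3 : i + 2 ≤ k
    · rw [nm i h1 h3]
      exact hm1 i
    · have e : i = k - 1 := by omega
      subst e
      rw [nk]
      exact hp
  have nB : ∀ i, 1 ≤ i → i + 2 ≤ k → n i ∈ Att G x (y (i + 1)) := by
    intro i h1 h2
    by_cases h3 : 2 ≤ i
    · rw [nm i h3 h2]
      exact hm2 i
    · have e : i = 1 := by omega
      subst e
      rw [n1]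
      exact hp'
  have nR : ∀ i, 1 ≤ i → i + 2 ≤ k → n i ∈ RR G x k y := by
    intro i h1 h2
    by_cases h3 : 2 ≤ i
    · exact RR_of i h3 h2 _ (nA i h3 (by omega))
    · have e : i = 1 := by omega
      subst e
      exact RR_of 2 (by omega) (by omega) _ (nB 1 (by omega) (by omega))
  have nR' : ∀ i, 2 ≤ i → i < k → n i ∈ RR G x k (fun l => y (l + 1)) := by
    intro i h1 h2
    by_cases h3 : i + 2 ≤ k
    · exact RR_of' (i + 1) (by omega) (by omega) _ (nB i (by omega) h3)
    · exact RR_of' i (by omega) (by omega) _ (nA i h1 h2)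
  -- the attachments of the other components
  have off : ∀ c j, 2 ≤ c → c < k → 1 ≤ j → j ≤ k - 1 → j ≠ c - 1 → j ≠ c →
      n j ∉ Att G x (y c) := by
    intro c j h1 h2 h3 h4 h5 h6
    by_cases hj1 : j = 1
    · subst hj1
      rw [n1]
      exact fun h0 => hpR' (RR_of' c (by omega) (by omega) _ h0)
    by_cases hj2 : j = k - 1
    · subst hj2
      rw [nk]
      exact fun h0 => hpR (RR_of c (by omega) (by omega) _ h0)
    by_cases hj3 : j < c
    · exact hds j c (by omega) (by omega) h2 _ (nA j (by omega) (by omega))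
    · intro h0
      exact hds c (j + 1) (by omega) (by omega) (by omega) _ h0 (nB j (by omega) (by omega))
  have inj : ∀ i j, 1 ≤ i → i < j → j ≤ k - 1 → n i ≠ n j := by
    intro i j h1 h2 h3 e
    by_cases h4 : i + 1 < j
    · have h5 := nA j (by omega) (by omega)
      rw [← e] at h5
      exact off j i (by omega) (by omega) h1 (by omega) (by omega) (by omega) h5
    · have e2 : j = i + 1 := by omega
      subst e2
      by_cases h5 : 2 ≤ i
      · have h6 := nA i h5 (by omega)
        rw [e] at h6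
        exact off i (i + 1) h5 (by omega) (by omega) (by omega) (by omega) (by omega) h6
      · have e3 : i = 1 := by omega
        subst e3
        have h6 := nB 2 (by omega) (by omega)
        have e' : n 1 = n 2 := e
        rw [← e'] at h6
        exact off 3 1 (by omega) (by omega) (by omega) (by omega) (by omega) (by omega) h6
  obtain ⟨P, hP, hPC⟩ := hARX V G x y n 1 (k - 1) (by omega)
    (fun i h1 h2 => ⟨nB i h1 (by omega), nA (i + 1) (by omega) (by omega)⟩)
    (fun i j h1 h2 h3 h4 h5 h6 => off (i + 1) j (by omega) (by omega) h3 h4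
      (by omega) (by omega))
    inj (fun i j h1 h2 h3 => hM.ncm i j h2 (by omega))
  -- separation
  have sep : ∀ i j, i < j → j < i + k → ∀ u v, Comp G x (y i) u → Comp G x (y j) v →
      u ≠ v ∧ ¬ G.Adj u v := by
    intro i j h1 h2 u v hu hv
    exact hSEP V G x (y i) (y j) (hM.ncm i j h1 h2) u hu v hv
  have hn1 : ∀ i, 1 ≤ i → i ≤ k - 1 → G.Adj h (n i) := by
    intro i h1 h2
    by_cases h3 : 2 ≤ i
    · exact full h hU i h3 (by omega) _ (nA i h3 (by omega))
    · have e : i = 1 := by omega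
      subst e
      exact full h hU 2 (by omega) (by omega) _ (nB 1 (by omega) (by omega))
  have hn2 : ∀ i, 1 ≤ i → i ≤ k - 1 → G.Adj h' (n i) := by
    intro i h1 h2
    by_cases h3 : 2 ≤ i
    · exact full' h' hU' i h3 (by omega) _ (nA i h3 (by omega))
    · have e : i = 1 := by omega
      subst e
      exact full' h' hU' 2 (by omega) (by omega) _ (nB 1 (by omega) (by omega))
  have ek : 1 + (k - 2) = k - 1 := by omega
  have far : ∀ {c v : V}, Comp G x c v → v ≠ x ∧ ¬ G.Adj x v := fun hc => hc.right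
  have hL : LPc G x h h' E1.reverse n P 1 (k - 2) E2 false true := by
    constructor
    case arc =>
      rw [ek]
      exact hP
    case st =>
      intro i j h1 h2 h3
      refine (hSTB V G hR.df x h (n i) (n j) (far hC).1 (inj i j h1 h2 (by omega))
        (hP.xn i h1 (by omega)) (hP.xn j (by omega) (by omega)) (hn1 i h1 (by omega))
        (hn1 j (by omega) (by omega))).1 (far hC).2
    case hk => exact (sep 0 1 (by omega) (by omega) h h' hC hC').1
    case nhk => exact (sep 0 1 (by omega) (by omega) h h' hC hC').2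
    case hn => exact fun i h1 h2 => ⟨hn1 i h1 (by omega), hn2 i h1 (by omega)⟩
    case hP =>
      intro i h1 h2 v hv
      have h3 := hPC i h1 (by omega) v hv
      have s1 := sep 0 (i + 1) (by omega) (by omega) h v hC h3
      have s2 := sep 1 (i + 1) (by omega) (by omega) h' v hC' h3
      exact ⟨s1.1.symm, s2.1.symm, s1.2, s2.2⟩
    case ne1 => exact fun e => ne1 (List.reverse_eq_nil_iff.1 e)
    case ne2 => exact ne2
    case ip1 => exact (st_IPL V G).1 E1 ip1
    case ip2 => exact ip2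
    case h1 =>
      intro v hv
      rw [List.head?_reverse] at hv
      have h3 := in1 v (List.mem_of_mem_getLast? hv)
      have s1 := sep 0 1 (by omega) (by omega) h v hC h3.1
      exact ⟨⟨fun h0 => absurd h0 s1.2, fun h0 => absurd h0 (by decide)⟩,
        ⟨fun _ => rfl, fun _ => la1 v hv⟩⟩
    case t1 =>
      intro v hv
      rw [List.tail_reverse, List.mem_reverse] at hv
      have h3 := in1 v (List.mem_of_mem_dropLast hv)
      exact ⟨(sep 0 1 (by omega) (by omega) h v hC h3.1).2, dl1 v hv⟩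
    case h2 =>
      intro v hv
      have h3 := in2 v (List.mem_of_mem_getLast? hv)
      have s1 := sep 0 1 (by omega) (by omega) v h' h3.1 hC'
      exact ⟨⟨fun _ => rfl, fun _ => la2 v hv⟩,
        ⟨fun h0 => absurd h0.symm s1.2, fun h0 => absurd h0 (by decide)⟩⟩
    case t2 =>
      intro v hv
      have h3 := in2 v (List.mem_of_mem_dropLast hv)
      exact ⟨dl2 v hv, fun h0 => (sep 0 1 (by omega) (by omega) v h' h3.1 hC').2 h0.symm⟩
    case e1 =>
      intro v hv
      rw [List.mem_reverse] at hv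
      have h3 := in1 v hv
      refine ⟨(sep 0 1 (by omega) (by omega) h v hC h3.1).1.symm, fun e => h3.2 (e ▸ hU'), ?_⟩
      rw [List.getLast?_reverse, n1]
      exact ad1 v hv
    case e2 =>
      intro v hv
      have h3 := in2 v hv
      refine ⟨fun e => h3.2 (e ▸ hU), (sep 0 1 (by omega) (by omega) v h' h3.1 hC').1, ?_⟩
      rw [ek, nk]
      exact ad2 v hv
    case c1 =>
      intro v hv
      rw [List.mem_reverse] at hv
      have h3 := in1 v hv
      refine ⟨fun i h1 h2 => ⟨fun e => (far h3.1).2 (e ▸ hP.xn i h1 (by omega)), fun h4 =>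
        an1 v hv _ (nR' i (by omega) (by omega))⟩, fun i h1 h2 z hz => ?_⟩
      exact sep 1 (i + 1) (by omega) (by omega) v z h3.1 (hPC i h1 (by omega) z hz)
    case c2 =>
      intro v hv
      have h3 := in2 v hv
      refine ⟨fun i h1 h2 => ⟨fun e => (far h3.1).2 (e ▸ hP.xn i h1 (by omega)), fun h4 =>
        an2 v hv _ (nR i (by omega) (by omega))⟩, fun i h1 h2 z hz => ?_⟩
      exact sep 0 (i + 1) (by omega) (by omega) v z h3.1 (hPC i h1 (by omega) z hz)
    case c12 =>
      intro v hv z hz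
      rw [List.mem_reverse] at hv
      have s1 := sep 0 1 (by omega) (by omega) z v (in2 z hz).1 (in1 v hv).1
      exact ⟨s1.1.symm, fun h0 => s1.2 h0.symm⟩
  have hodd : Odd (k - 2) := by
    obtain ⟨r, hr⟩ := hM.odd
    exact ⟨r - 1, by omega⟩
  refine (hLPN V G x h h' E1.reverse n P 1 (k - 2) E2 false true hL
    (Or.inr ⟨by decide, hodd, by omega⟩)).1 {v | v ≠ x} ?_ (hR.naj x)
  rintro v (e | e | hv | hv | ⟨i, h1, h2, e⟩ | ⟨i, h1, h2, hv⟩)
  · rw [e]
    exact (far hC).1
  · rw [e]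
    exact (far hC').1
  · rw [List.mem_reverse] at hv
    exact (far (in1 v hv).1).1
  · exact (far (in2 v hv).1).1
  · rw [e]
    exact (hP.xn i h1 (by omega)).ne.symm
  · exact (hP.far i h1 (by omega) v hv).1

end Pool.Agent.Helper64.FL
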