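import Pool.Agent.Helper64.FL.StC

/-! MP_866009_co: for a cycle of connections with all signs different there is no edge from the end
of a path to the beginning of the next but one. -/

set_option autoImplicit false

namespace Pool.Agent.Helper64.FL

open Pool.Agent.Helper64.CT Pool.Agent.Helper64.DT
open Pool.Agent.Helper64.HG (Ovl Model Circ IC HellyCircle ChordModel)

theorem hcc_per {α : Type} (f : ℕ → α) (m : ℕ) (h : ∀ i, f (i + m) = f i) (i j : ℕ)
    (hij : i % m = j % m) : f i = f j := by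
  have h1 : Function.Periodic f m := h
  rw [← h1.map_mod_nat i, ← h1.map_mod_nat j, hij]

theorem hcc_ne (m i j : ℕ) (h1 : i < j) (h2 : j < i + m) : i % m ≠ j % m := by
  intro h
  have h3 : m ∣ j - i := (Nat.modEq_iff_dvd' (le_of_lt h1)).1 h
  have h4 := Nat.le_of_dvd (by omega) h3
  omega

theorem hcc_rep (m k i : ℕ) (hm : 0 < m) : ∃ j, i ≤ j ∧ j < i + m ∧ j % m = k % m := by
  refine ⟨i + (k + m * i - i) % m, by omega, ?_, ?_⟩
  · have := Nat.mod_lt (k + m * i - i) hm
    omega
  · rw [Nat.add_mod_mod]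
    have h : i ≤ m * i := Nat.le_mul_of_pos_left i hm
    have h2 : i + (k + m * i - i) = k + m * i := by omega
    rw [h2, Nat.add_mul_mod_self_left]

theorem hcc_path {V : Type} (G : SimpleGraph V) (S : Set V) : ∀ (l : List V) (a b : V),
    IPt G l → l.head? = some a → l.getLast? = some b → (∀ v ∈ l, v ∈ S) → Cn G S a b := by
  intro l
  induction l with
  | nil =>
    intro a b _ h
    exact absurd h (by simp)
  | cons c l ih =>
    intro a b hI ha hb hS
    have hca : c = a := by simpa using ha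
    subst hca
    cases l with
    | nil =>
      have hcb : c = b := by simpa using hb
      subst hcb
      exact ⟨hS c (by simp), Relation.ReflTransGen.refl⟩
    | cons c' l =>
      have h1 : G.Adj c c' := hI.2.1 c' rfl
      have h2 : IPt G (c' :: l) := hI.2.2.2
      rw [List.getLast?_cons_cons] at hb
      have h3 := ih c' b h2 rfl hb (fun v hv => hS v (List.mem_cons_of_mem _ hv))
      exact ⟨hS c (by simp), Relation.ReflTransGen.head ⟨h1, h3.1⟩ h3.2⟩

/-- the cyclic data with one link replaced by an edge -/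
theorem hcc_rcd (hRAY : ST_RAY) (hCNB : ST_CNB) {V : Type} (G : SimpleGraph V) (Q : Set V)
    (hdf : DF G) (hmx : MaxC G Q) (m : ℕ) (q : ℕ → V) (P : ℕ → List V) (u w : ℕ → V)
    (hB : BCy G Q m q P u w) (hanti : ∀ i, Anti G {v | v ∈ P i} {v | v ∈ P (i + 1)})
    (A B : ℕ → Bool) (hA : ∀ k, A (k + m) = A k) (hBm : ∀ k, B (k + m) = B k)
    (hAB : ∀ k, B (k + 1) = A k) (hn : ∀ k, A k = true → B k = false)
    (hadj : ∀ k, A k = true → G.Adj (w k) (u (k + 1))) :
    RCd G {v | (∃ k, v = q k) ∨ ∃ k, A k = false ∧ v ∈ P k} m q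
      (fun k => cond (A k) (w k) (u k)) (fun k => cond (B k) (u k) (w k))
      (fun k => xor true (xor (A k) (B k))) := by
  obtain ⟨hR1, -, -, -, -, -⟩ := hRAY V G Q hdf hmx
  obtain ⟨hC1, hC2, -, hC4, -, -, -⟩ := hCNB V G
  have hm3 := hB.m3
  have qQ : ∀ k, q k ∈ Q := fun k => (hB.rU k).1
  have qne : ∀ i j, i < j → j < i + m → q j ≠ q i :=
    fun i j h1 h2 h3 => hB.inj i j h1 h2 h3.symm
  have qadj : ∀ i j, i < j → j < i + m → G.Adj (q i) (q j) :=
    fun i j h1 h2 => hmx.1 _ (qQ i) _ (qQ j) (hB.inj i j h1 h2)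
  have qu : ∀ i j, i < j → j < i + m → u i ∈ Far G (q j) :=
    fun i j h1 h2 => (hR1 _ _ _ (hB.rU i) (qQ j) (qne i j h1 h2)).1
  have qw : ∀ i j, i < j → j < i + m → w i ∈ Far G (q j) :=
    fun i j h1 h2 => (hR1 _ _ _ (hB.rW i) (qQ j) (qne i j h1 h2)).1
  have uP : ∀ k, u k ∈ P k := fun k => List.mem_of_head? (hB.hd k)
  have wP : ∀ k, w (k + 1) ∈ P k := fun k => List.mem_of_getLast? (hB.lt k)
  have e1 : ∀ k, k + (m - 1) + 1 = k + m := fun k => by omega
  have hpw : ∀ k, w k ∈ P (k + (m - 1)) := by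
    intro k
    have h := wP (k + (m - 1))
    rw [e1 k, hB.pw k] at h
    exact h
  have hpA : ∀ k, A (k + (m - 1)) = B k := by
    intro k
    rw [← hAB, e1 k, hBm]
  have hanti' : ∀ k, Anti G {v | v ∈ P (k + (m - 1))} {v | v ∈ P k} := by
    intro k
    have h := hanti (k + (m - 1))
    rw [e1 k, hB.pP k] at h
    exact h
  have hBA : ∀ k, B k = true → A k = false := by
    intro k hk
    cases hAk : A k with
    | false => rfl
    | true => rw [hn k hAk] at hk; exact absurd hk (by simp)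
  have inP : ∀ k, A k = false → ∀ v ∈ P k,
      v ∈ {v | (∃ k, v = q k) ∨ ∃ k, A k = false ∧ v ∈ P k} :=
    fun k hk v hv => Or.inr ⟨k, hk, hv⟩
  have inq : ∀ k, q k ∈ {v | (∃ k, v = q k) ∨ ∃ k, A k = false ∧ v ∈ P k} :=
    fun k => Or.inl ⟨k, rfl⟩
  have hfar : ∀ i j, i + 1 < j → j < i + m → ∀ v ∈ P i, v ∈ Far G (q j) := by
    intro i j h1 h2 v hv
    have h := (hB.zz i v hv).1
    refine ⟨?_, h.2 (q j) (qQ j) (qne i j (by omega) h2) (qne (i + 1) j h1 (by omega))⟩
    intro e
    exact h.1 (e ▸ qQ j)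
  have uS : ∀ i, A i = false → u i ∈ {v | (∃ k, v = q k) ∨ ∃ k, A k = false ∧ v ∈ P k} :=
    fun i hi => inP i hi _ (uP i)
  have wS : ∀ i, B i = false → w i ∈ {v | (∃ k, v = q k) ∨ ∃ k, A k = false ∧ v ∈ P k} :=
    fun i hi => inP (i + (m - 1)) (by rw [hpA]; exact hi) _ (hpw i)
  refine ⟨hm3, hB.pq, ?_, ?_, ?_, ?_, ?_, ?_, ?_, ?_⟩
  · intro i
    show cond (A (i + m)) (w (i + m)) (u (i + m)) = cond (A i) (w i) (u i)
    rw [hA, hB.pw, hB.pu]
  · intro i
    show cond (B (i + m)) (u (i + m)) (w (i + m)) = cond (B i) (u i) (w i)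
    rw [hBm, hB.pw, hB.pu]
  · intro i
    show xor true (xor (A (i + m)) (B (i + m))) = xor true (xor (A i) (B i))
    rw [hA, hBm]
  · intro i
    refine ⟨inq i, ?_, ?_⟩
    · show cond (A i) (w i) (u i) ∈ _
      cases hAi : A i with
      | false => exact uS i hAi
      | true => exact wS i (hn i hAi)
    · show cond (B i) (u i) (w i) ∈ _
      cases hBi : B i with
      | false => exact wS i hBi
      | true => exact uS i (hBA i hBi)
  · intro i
    refine ⟨?_, ?_⟩
    · show G.Adj (q i) (cond (A i) (w i) (u i))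
      cases A i with
      | false => exact (hB.rU i).2.1
      | true => exact (hB.rW i).2.1
    · show G.Adj (q i) (cond (B i) (u i) (w i))
      cases B i with
      | false => exact (hB.rW i).2.1
      | true => exact (hB.rU i).2.1
  · intro i j h1 h2
    refine ⟨qadj i j h1 h2, ?_, ?_⟩
    · show cond (A i) (w i) (u i) ∈ _
      cases A i with
      | false => exact qu i j h1 h2
      | true => exact qw i j h1 h2
    · show cond (B i) (u i) (w i) ∈ _
      cases B i with
      | false => exact qw i j h1 h2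
      | true => exact qu i j h1 h2
  · intro i j h1 h2
    show Cn G _ (cond (A i) (w i) (u i)) (cond (B (i + 1)) (u (i + 1)) (w (i + 1)))
    rw [hAB]
    cases hAi : A i with
    | false =>
      exact hcc_path G _ (P i) (u i) (w (i + 1)) (hB.ip i) (hB.hd i) (hB.lt i)
        (fun v hv => ⟨inP i hAi v hv, hfar i j h1 h2 v hv⟩)
    | true =>
      exact hC4 _ _ _ ⟨wS i (hn i hAi), qw i j (by omega) h2⟩
        ⟨uS (i + 1) (hBA (i + 1) (by rw [hAB]; exact hAi)), qu (i + 1) j h1 (by omega)⟩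
        (hadj i hAi)
  · intro i
    refine ⟨i + 1, by omega, by omega, ?_⟩
    show (xor true (xor (A i) (B i)) = false ∧
        Cn G _ (cond (B i) (u i) (w i)) (cond (A i) (w i) (u i))) ∨
      (xor true (xor (A i) (B i)) = true ∧ cond (B i) (u i) (w i) ≠ cond (A i) (w i) (u i) ∧
        ¬ G.Adj (cond (B i) (u i) (w i)) (cond (A i) (w i) (u i)) ∧
        Cn G (_ ∩ Far G (cond (B i) (u i) (w i))) (cond (A i) (w i) (u i)) (q (i + 1)) ∧
        Cn G (_ ∩ Far G (cond (A i) (w i) (u i))) (cond (B i) (u i) (w i)) (q (i + 1)))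
    cases hAi : A i with
    | true =>
      have hBi := hn i hAi
      rw [hBi]
      exact Or.inl ⟨rfl, ⟨wS i hBi, qw i (i + 1) (by omega) (by omega)⟩,
        Relation.ReflTransGen.refl⟩
    | false =>
      cases hBi : B i with
      | true =>
        exact Or.inl ⟨rfl, ⟨uS i hAi, qu i (i + 1) (by omega) (by omega)⟩,
          Relation.ReflTransGen.refl⟩
      | false =>
        refine Or.inr ⟨rfl, ?_, ?_, ?_, ?_⟩
        · exact (hanti' i (w i) (hpw i) (u i) (uP i)).1
        · exact (hanti' i (w i) (hpw i) (u i) (uP i)).2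
        · have hf : ∀ v ∈ P i, v ∈ {v | (∃ k, v = q k) ∨ ∃ k, A k = false ∧ v ∈ P k} ∩
              Far G (w i) := by
            intro v hv
            have h := hanti' i (w i) (hpw i) v hv
            exact ⟨inP i hAi v hv, fun e => h.1 e.symm, h.2⟩
          have h1 := hcc_path G _ (P i) (u i) (w (i + 1)) (hB.ip i) (hB.hd i) (hB.lt i) hf
          have h2 := qw i (i + 1) (by omega) (by omega)
          have h3 : q (i + 1) ∈ {v | (∃ k, v = q k) ∨ ∃ k, A k = false ∧ v ∈ P k} ∩
              Far G (w i) := ⟨inq (i + 1), fun e => h2.1 e.symm, fun e => h2.2 e.symm⟩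
          exact hC2 _ _ _ _ h1 (hC4 _ _ _ (hf _ (wP i)) h3 (hB.rW (i + 1)).2.1.symm)
        · have hf : ∀ v ∈ P (i + (m - 1)),
              v ∈ {v | (∃ k, v = q k) ∨ ∃ k, A k = false ∧ v ∈ P k} ∩ Far G (u i) := by
            intro v hv
            have h := hanti' i v hv (u i) (uP i)
            exact ⟨inP (i + (m - 1)) (by rw [hpA]; exact hBi) v hv, h.1, fun e => h.2 e.symm⟩
          have hl := hB.lt (i + (m - 1))
          rw [e1 i, hB.pw i] at hl
          have h1 := hcc_path G _ (P (i + (m - 1))) (u (i + (m - 1))) (w i)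
            (hB.ip (i + (m - 1))) (hB.hd (i + (m - 1))) hl hf
          have h2 := qu i (i + (m - 1)) (by omega) (by omega)
          have h3 := qu i (i + 1) (by omega) (by omega)
          have h4 : q (i + (m - 1)) ∈ {v | (∃ k, v = q k) ∨ ∃ k, A k = false ∧ v ∈ P k} ∩
              Far G (u i) := ⟨inq (i + (m - 1)), fun e => h2.1 e.symm, fun e => h2.2 e.symm⟩
          have h5 : q (i + 1) ∈ {v | (∃ k, v = q k) ∨ ∃ k, A k = false ∧ v ∈ P k} ∩
              Far G (u i) := ⟨inq (i + 1), fun e => h3.1 e.symm, fun e => h3.2 e.symm⟩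
          have h6 := hC4 _ _ _ (hf _ (uP (i + (m - 1)))) h4 (hB.rU (i + (m - 1))).2.1.symm
          have h7 := hC4 _ _ _ h4 h5 (qadj (i + 1) (i + (m - 1)) (by omega) (by omega)).symm
          exact hC2 _ _ _ _ (hC1 _ _ _ h1).2 (hC2 _ _ _ _ h6 h7)

theorem st_HCC (hBCF : ST_BCF) (hRCY : ST_RCY) (hXSB : ST_XSB) (hRAY : ST_RAY)
    (hCNB : ST_CNB) : ST_HCC := by
  intro V G Q σ hE m q P u w hB h4 hev hsg hdj i0 hadj
  obtain ⟨-, -, -, -, hanti0⟩ := hBCF V G Q σ hE m q P u w hB
  have hanti : ∀ i, Anti G {v | v ∈ P i} {v | v ∈ P (i + 1)} :=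
    fun i => hanti0 i h4 (fun h => hsg (i + 1) h.symm)
  have hA : ∀ k, decide ((k + m) % m = (i0 + 1) % m) = decide (k % m = (i0 + 1) % m) := by
    intro k
    rw [Nat.add_mod_right]
  have hBm : ∀ k, decide ((k + m) % m = (i0 + 2) % m) = decide (k % m = (i0 + 2) % m) := by
    intro k
    rw [Nat.add_mod_right]
  have hAB : ∀ k, decide ((k + 1) % m = (i0 + 2) % m) = decide (k % m = (i0 + 1) % m) := by
    intro k
    apply decide_eq_decide.2
    constructor
    · intro h
      exact Nat.ModEq.add_right_cancel' 1 h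
    · intro h
      exact Nat.ModEq.add_right 1 h
  have hn : ∀ k, decide (k % m = (i0 + 1) % m) = true →
      decide (k % m = (i0 + 2) % m) = false := by
    intro k hk
    have h1 := of_decide_eq_true hk
    apply decide_eq_false
    rw [h1]
    exact hcc_ne m (i0 + 1) (i0 + 2) (by omega) (by omega)
  have hadj' : ∀ k, decide (k % m = (i0 + 1) % m) = true → G.Adj (w k) (u (k + 1)) := by
    intro k hk
    have h1 := of_decide_eq_true hk
    have h2 : (k + 1) % m = (i0 + 2) % m := Nat.ModEq.add_right 1 h1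
    rw [hcc_per w m hB.pw k (i0 + 1) h1, hcc_per u m hB.pu (k + 1) (i0 + 2) h2]
    exact hadj
  have hrcd := hcc_rcd hRAY hCNB G Q hE.red.df hE.mx m q P u w hB hanti
    (fun k => decide (k % m = (i0 + 1) % m)) (fun k => decide (k % m = (i0 + 2) % m))
    hA hBm hAB hn hadj'
  have hxs : xs (fun k => xor true (xor (decide (k % m = (i0 + 1) % m))
      (decide (k % m = (i0 + 2) % m)))) m = false := by
    rw [(hXSB (fun _ => true) (fun k => xor (decide (k % m = (i0 + 1) % m))
      (decide (k % m = (i0 + 2) % m))) m).1]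
    rw [(hXSB (fun k => decide (k % m = (i0 + 1) % m))
      (fun k => decide (k % m = (i0 + 2) % m)) m).1]
    have h1 : xs (fun k => decide ((k + 1) % m = (i0 + 2) % m)) m =
        xs (fun k => decide (k % m = (i0 + 2) % m)) m :=
      (hXSB (fun k => decide (k % m = (i0 + 2) % m)) (fun _ => true) m).2.1 hBm 1
    have h2 : (fun k => decide ((k + 1) % m = (i0 + 2) % m)) =
        (fun k => decide (k % m = (i0 + 1) % m)) := funext hAB
    rw [h2] at h1
    rw [h1, (hXSB (fun _ => true) (fun _ => true) m).2.2.2.2.2, Bool.xor_self]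
    rw [decide_eq_false (Nat.not_odd_iff_even.2 hev)]
    rfl
  have hsub : ∀ v, v ∈ {v | (∃ k, v = q k) ∨
      ∃ k, decide (k % m = (i0 + 1) % m) = false ∧ v ∈ P k} → v ∈ {v | v ≠ w (i0 + 2)} := by
    intro v hv hvw
    have hwP : w (i0 + 2) ∈ P (i0 + 1) := List.mem_of_getLast? (hB.lt (i0 + 1))
    rcases hv with ⟨k, hk⟩ | ⟨k, hk, hv⟩
    · apply (hB.rW (i0 + 2)).2.2
      rw [← hvw, hk]
      exact (hB.rU k).1
    · have hk1 : ¬ k % m = (i0 + 1) % m := of_decide_eq_false hk
      rw [hvw] at hv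
      obtain ⟨j, hj1, hj2, hj3⟩ := hcc_rep m k (i0 + 1) (by omega)
      have hPj : P j = P k := hcc_per P m hB.pP j k hj3
      rw [← hPj] at hv
      have hj4 : j ≠ i0 + 1 := by
        intro e
        rw [e] at hj3
        exact hk1 hj3.symm
      by_cases hj5 : j = i0 + 2
      · rw [hj5] at hv
        exact (hanti (i0 + 1) (w (i0 + 2)) hwP (w (i0 + 2)) hv).1 rfl
      · by_cases hj6 : j + 1 = i0 + 1 + m
        · have h7 := hanti j (w (i0 + 2)) hv (w (i0 + 2))
          rw [hj6, hB.pP (i0 + 1)] at h7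
          exact (h7 hwP).1 rfl
        · exact hdj (i0 + 1) j (by omega) (by omega) (w (i0 + 2)) hwP hv
  apply hRCY V G _ m q _ _ _ hrcd hxs
  obtain ⟨b, hb1, hb2, hb3⟩ := hE.red.naj (w (i0 + 2))
  exact ⟨b, fun x hx y hy => hb1 x (hsub x hx) y (hsub y hy),
    fun c hc x hx y hy => hb2 c (hsub c hc) x (hsub x hx) y (hsub y hy),
    fun n hn' v hv z hz => hb3 n (hsub n hn') v (hsub v hv) z (hsub z hz)⟩

end Pool.Agent.Helper64.FL
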