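import Pool.Agent.Helper64.FL.StG

set_option autoImplicit false

namespace Pool.Agent.Helper64.FL

open Pool.Agent.Helper64.CT Pool.Agent.Helper64.DT

section
variable {V : Type} {G : SimpleGraph V}

lemma qbc_far {x y u : V} (h : u ∈ KC G x y) : u ≠ x ∧ ¬ G.Adj x u := by
  obtain ⟨_, hz, _⟩ := h
  exact hz

lemma qbc_d0 {x y u : V} (h : u ∈ KC G x y) : x ≠ u ∧ ¬ G.Adj x u :=
  ⟨(qbc_far h).1.symm, (qbc_far h).2⟩

lemma qbc_ne {x y u n : V} (h : u ∈ KC G x y) (hn : G.Adj x n) : u ≠ n := by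
  rintro rfl
  exact (qbc_far h).2 hn

lemma qbc_att {x y u n : V} (h : u ∈ KC G x y) (hn : G.Adj x n) (ha : n ∉ Att G x y) :
    ¬ G.Adj u n := fun hu => ha ⟨hn, u, h, hu.symm⟩

lemma qbc_tri {a w : V} {l : List V} (h : Pth G a l w) (e : a = w) : l = [] := by
  rcases h with h | h
  · exact h.2
  · exact absurd e h.1

lemma qbc_pth {a w : V} {l : List V} (h : Pth G a l w) (e : a ≠ w) : IPt G (a :: (l ++ [w])) := by
  rcases h with h | h
  · exact absurd h.1 e
  · exact h.2

end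

theorem st_QBC (hSEP : ST_SEP) (hPTB : ST_PTB) : ST_QBC := by
  intro V G hNo x y1 y2 y3 a b b' a' t L w c12 c13 c23 xa xb xb' xa' a2 a3 hL ta tb tb' ta' wb wb'
    h2 h3 l Ll l' r R r' hl hr
  have A12 := hSEP V G x y1 y2 c12
  have A13 := hSEP V G x y1 y3 c13
  have A23 := hSEP V G x y2 y3 c23
  have la' : ∀ u ∈ KC G x y2, ¬ G.Adj u a' := fun u hu => qbc_att hu xa' a2
  have ra : ∀ u ∈ KC G x y3, ¬ G.Adj u a := fun u hu => qbc_att hu xa a3
  have lb' : G.Adj l' b' := (h2 _ hl.rK).1 hl.rb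
  have rb' : G.Adj r' b' := (h3 _ hr.rK).1 hr.rb
  have nab : a ≠ b := by rintro rfl; exact ra _ hr.rK hr.rb
  have nab' : a ≠ b' := by rintro rfl; exact ra _ hr.rK rb'
  have naa' : a ≠ a' := by rintro rfl; exact la' _ hl.lK hl.la
  have nbb' : b ≠ b' := by rintro rfl; exact wb' wb
  have nba' : b ≠ a' := by rintro rfl; exact la' _ hl.rK hl.rb
  have nb'a' : b' ≠ a' := by rintro rfl; exact la' _ hl.rK lb'
  obtain ⟨-, pnd, -⟩ := hPTB V G
  have P1 := pnd _ _ _ hL.pth
  have P2 := pnd _ _ _ hl.pth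
  have P3 := pnd _ _ _ hr.pth
  refine hNo preBC (by simp [preBs]) (fun i => ([x, a, b, b', a', t, w, l, l', r, r'] : List V).getD i x)
    [L, Ll, R] ⟨?_, ?_, ?_, ?_, ?_, ?_, ?_, ?_, ?_, ?_, ?_⟩
  · simp only [preBC, List.forall_mem_cons, List.getD_cons_zero, List.getD_cons_succ]
    exact ⟨xa, xb, xb', xa', ta, tb, tb', ta', wb, hl.la, hl.rb, lb', hr.la, hr.rb, rb', by simp⟩
  · simp only [preBC, List.forall_mem_cons, List.getD_cons_zero, List.getD_cons_succ]
    refine ⟨qbc_d0 hL.lK, qbc_d0 hL.rK, ⟨qbc_ne hL.rK xb', wb'⟩, qbc_d0 hl.lK, ?_, ?_, qbc_d0 hl.rK,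
      ?_, ?_, ⟨qbc_ne hl.lK xa', la' _ hl.lK⟩, ⟨qbc_ne hl.rK xa', la' _ hl.rK⟩, qbc_d0 hr.lK, ?_, ?_,
      ?_, ?_, qbc_d0 hr.rK, ?_, ?_, ?_, ?_, ⟨qbc_ne hr.lK xa, ra _ hr.lK⟩,
      ⟨qbc_ne hr.rK xa, ra _ hr.rK⟩, by simp⟩
    · have := A12 t hL.lK l hl.lK
      exact ⟨this.1.symm, fun h => this.2 h.symm⟩
    · have := A12 w hL.rK l hl.lK
      exact ⟨this.1.symm, fun h => this.2 h.symm⟩
    · have := A12 t hL.lK l' hl.rK
      exact ⟨this.1.symm, fun h => this.2 h.symm⟩
    · have := A12 w hL.rK l' hl.rK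
      exact ⟨this.1.symm, fun h => this.2 h.symm⟩
    · have := A13 t hL.lK r hr.lK
      exact ⟨this.1.symm, fun h => this.2 h.symm⟩
    · have := A13 w hL.rK r hr.lK
      exact ⟨this.1.symm, fun h => this.2 h.symm⟩
    · have := A23 l hl.lK r hr.lK
      exact ⟨this.1.symm, fun h => this.2 h.symm⟩
    · have := A23 l' hl.rK r hr.lK
      exact ⟨this.1.symm, fun h => this.2 h.symm⟩
    · have := A13 t hL.lK r' hr.rK
      exact ⟨this.1.symm, fun h => this.2 h.symm⟩
    · have := A13 w hL.rK r' hr.rK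
      exact ⟨this.1.symm, fun h => this.2 h.symm⟩
    · have := A23 l hl.lK r' hr.rK
      exact ⟨this.1.symm, fun h => this.2 h.symm⟩
    · have := A23 l' hl.rK r' hr.rK
      exact ⟨this.1.symm, fun h => this.2 h.symm⟩
  · simp only [preBC, List.forall_mem_cons, List.getD_cons_zero, List.getD_cons_succ]
    exact ⟨nab, nab', naa', nbb', nba', nb'a', by simp⟩
  · simp only [preBC, List.forall_mem_cons, List.getD_cons_zero, List.getD_cons_succ]
    refine ⟨fun h => ?_, fun h => ?_, fun h => ?_, fun h => ?_, fun h => ?_, fun h => ?_, by simp⟩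
    · exact ⟨qbc_ne hl.lK xb, (hl.lr h.1).1⟩
    · exact ⟨qbc_ne hl.lK xb', fun k => (hl.lr h.1).1 ((h2 _ hl.lK).2 k)⟩
    · exact ⟨qbc_ne hl.rK xa, (hl.lr h.1).2⟩
    · exact ⟨qbc_ne hr.lK xb, (hr.lr h.1).1⟩
    · exact ⟨qbc_ne hr.lK xb', fun k => (hr.lr h.1).1 ((h3 _ hr.lK).2 k)⟩
    · exact ⟨qbc_ne hr.rK xa', (hr.lr h.1).2⟩
  · simp [preBC]
  · simp [preBC]
  · simp only [preBC, List.zip_cons_cons, List.zip_nil_right, List.forall_mem_cons,
      List.getD_cons_zero, List.getD_cons_succ]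
    exact ⟨qbc_tri hL.pth, qbc_tri hl.pth, qbc_tri hr.pth, by simp⟩
  · simp only [preBC, List.zip_cons_cons, List.zip_nil_right, List.forall_mem_cons,
      List.getD_cons_zero, List.getD_cons_succ]
    exact ⟨qbc_pth hL.pth, qbc_pth hl.pth, qbc_pth hr.pth, by simp⟩
  · have q1 : ∀ i < preBC.n, ([x, a, b, b', a', t, w, l, l', r, r'] : List V).getD i x ∉ L := by
      intro i hi hm
      have hi' : i < 11 := hi
      have hK := hL.LK _ hm
      interval_cases i
      · exact (qbc_far hK).1 rfl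
      · exact qbc_ne hK xa rfl
      · exact qbc_ne hK xb rfl
      · exact qbc_ne hK xb' rfl
      · exact qbc_ne hK xa' rfl
      · exact P1.1 hm
      · exact P1.2.1 hm
      · exact (A12 _ hK _ hl.lK).1 rfl
      · exact (A12 _ hK _ hl.rK).1 rfl
      · exact (A13 _ hK _ hr.lK).1 rfl
      · exact (A13 _ hK _ hr.rK).1 rfl
    have q2 : ∀ i < preBC.n, ([x, a, b, b', a', t, w, l, l', r, r'] : List V).getD i x ∉ Ll := by
      intro i hi hm
      have hi' : i < 11 := hi
      have hK := hl.LK _ hm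
      interval_cases i
      · exact (qbc_far hK).1 rfl
      · exact qbc_ne hK xa rfl
      · exact qbc_ne hK xb rfl
      · exact qbc_ne hK xb' rfl
      · exact qbc_ne hK xa' rfl
      · exact (A12 _ hL.lK _ hK).1 rfl
      · exact (A12 _ hL.rK _ hK).1 rfl
      · exact P2.1 hm
      · exact P2.2.1 hm
      · exact (A23 _ hK _ hr.lK).1 rfl
      · exact (A23 _ hK _ hr.rK).1 rfl
    have q3 : ∀ i < preBC.n, ([x, a, b, b', a', t, w, l, l', r, r'] : List V).getD i x ∉ R := by
      intro i hi hm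
      have hi' : i < 11 := hi
      have hK := hr.LK _ hm
      interval_cases i
      · exact (qbc_far hK).1 rfl
      · exact qbc_ne hK xa rfl
      · exact qbc_ne hK xb rfl
      · exact qbc_ne hK xb' rfl
      · exact qbc_ne hK xa' rfl
      · exact (A13 _ hL.lK _ hK).1 rfl
      · exact (A13 _ hL.rK _ hK).1 rfl
      · exact (A23 _ hl.lK _ hK).1 rfl
      · exact (A23 _ hl.rK _ hK).1 rfl
      · exact P3.1 hm
      · exact P3.2.1 hm
    simp only [preBC, List.zip_cons_cons, List.zip_nil_right, List.forall_mem_cons]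
    exact ⟨q1, q2, q3, by simp⟩
  · simp only [preBC, List.zip_cons_cons, List.zip_nil_right, List.forall_mem_cons]
    refine ⟨?_, ?_, ?_, by simp⟩
    · intro i hi hU n1 n2 z hz
      have hK := hL.LK _ hz
      interval_cases i
      · exact (qbc_far hK).2
      · exact absurd (by simp) hU
      · exact absurd (by simp) hU
      · exact absurd (by simp) hU
      · exact absurd (by simp) hU
      · exact absurd rfl n1
      · exact absurd rfl n2
      · exact fun h => (A12 _ hK _ hl.lK).2 h.symm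
      · exact fun h => (A12 _ hK _ hl.rK).2 h.symm
      · exact fun h => (A13 _ hK _ hr.lK).2 h.symm
      · exact fun h => (A13 _ hK _ hr.rK).2 h.symm
    · intro i hi hU n1 n2 z hz
      have hK := hl.LK _ hz
      interval_cases i
      · exact (qbc_far hK).2
      · exact fun h => (hl.Lab _ hz).1 h.symm
      · exact fun h => (hl.Lab _ hz).2 h.symm
      · exact fun h => (hl.Lab _ hz).2 ((h2 _ hK).2 h.symm)
      · exact fun h => la' _ hK h.symm
      · exact (A12 _ hL.lK _ hK).2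
      · exact (A12 _ hL.rK _ hK).2
      · exact absurd rfl n1
      · exact absurd rfl n2
      · exact fun h => (A23 _ hK _ hr.lK).2 h.symm
      · exact fun h => (A23 _ hK _ hr.rK).2 h.symm
    · intro i hi hU n1 n2 z hz
      have hK := hr.LK _ hz
      interval_cases i
      · exact (qbc_far hK).2
      · exact fun h => ra _ hK h.symm
      · exact fun h => (hr.Lab _ hz).2 h.symm
      · exact fun h => (hr.Lab _ hz).2 ((h3 _ hK).2 h.symm)
      · exact fun h => (hr.Lab _ hz).1 h.symm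
      · exact (A13 _ hL.lK _ hK).2
      · exact (A13 _ hL.rK _ hK).2
      · exact (A23 _ hl.lK _ hK).2
      · exact (A23 _ hl.rK _ hK).2
      · exact absurd rfl n1
      · exact absurd rfl n2
  · simp only [List.pairwise_cons, List.forall_mem_cons]
    refine ⟨⟨fun u hu v hv => A12 u (hL.LK u hu) v (hl.LK v hv),
      fun u hu v hv => A13 u (hL.LK u hu) v (hr.LK v hv), by simp⟩,
      ⟨fun u hu v hv => A23 u (hl.LK u hu) v (hr.LK v hv), by simp⟩, ⟨by simp, List.Pairwise.nil⟩⟩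

end Pool.Agent.Helper64.FL
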